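import Mathlib

/-!
`q`-Pochhammer symbols and Gaussian binomial coefficients as formal power series over `ℚ`.
-/

set_option autoImplicit false

namespace Pool.Agent.Lib.MP_acbfbf_co

open PowerSeries Finset

/-- The `q`-Pochhammer symbol `(a; x)_n`, the product of `1 - a x ^ k` for `0 ≤ k < n`. -/
noncomputable def qPoch (a x : ℚ⟦X⟧) (n : ℕ) : ℚ⟦X⟧ := ∏ k ∈ range n, (1 - a * x ^ k)

/-- The Gaussian binomial coefficient with base `x`, namely
`(x; x)_n / ((x; x)_m (x; x)_(n-m))` if `m ≤ n` and `0` otherwise. -/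
noncomputable def gauss (x : ℚ⟦X⟧) (n m : ℕ) : ℚ⟦X⟧ :=
  if m ≤ n then qPoch x x n * (qPoch x x m * qPoch x x (n - m))⁻¹ else 0

end Pool.Agent.Lib.MP_acbfbf_co
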