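import Mathlib
import Pool.Agent.Lib.MP_acbfbf_co.Defs

/-!
Coefficientwise nonnegativity of formal power series, `q`-Pochhammer symbols and Gaussian
binomial coefficients.
-/

set_option autoImplicit false

namespace Pool.Agent.Lib.MP_acbfbf_co

open PowerSeries Finset

/-- All coefficients are nonnegative. -/
def NN (f : ℚ⟦X⟧) : Prop := ∀ n, 0 ≤ coeff n f

theorem NN.add {f g : ℚ⟦X⟧} (hf : NN f) (hg : NN g) : NN (f + g) := by
  intro n
  rw [map_add]
  exact add_nonneg (hf n) (hg n)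

theorem NN.mul {f g : ℚ⟦X⟧} (hf : NN f) (hg : NN g) : NN (f * g) := by
  intro n
  rw [coeff_mul]
  exact Finset.sum_nonneg (fun p _ => mul_nonneg (hf _) (hg _))

theorem NN.one : NN (1 : ℚ⟦X⟧) := by
  intro n
  rw [coeff_one]
  split_ifs <;> norm_num

theorem NN.zero : NN (0 : ℚ⟦X⟧) := by
  intro n
  simp

theorem NN.X_pow (k : ℕ) : NN ((X : ℚ⟦X⟧) ^ k) := by
  intro n
  rw [coeff_X_pow]
  split_ifs <;> norm_num

theorem NN.var : NN (X : ℚ⟦X⟧) := by
  have := NN.X_pow 1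
  rwa [pow_one] at this

theorem NN.pow {f : ℚ⟦X⟧} (hf : NN f) (k : ℕ) : NN (f ^ k) := by
  induction k with
  | zero => rw [pow_zero]; exact NN.one
  | succ k ih => rw [pow_succ]; exact ih.mul hf

theorem NN.sum {ι : Type} (s : Finset ι) (f : ι → ℚ⟦X⟧) (h : ∀ i ∈ s, NN (f i)) :
    NN (∑ i ∈ s, f i) := by
  classical
  induction s using Finset.induction_on with
  | empty => simpa using NN.zero
  | insert a s ha ih =>
    rw [Finset.sum_insert ha]
    exact (h a (mem_insert_self a s)).add (ih (fun i hi => h i (mem_insert_of_mem hi)))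

/-- `f - 1` has nonnegative coefficients. -/
def NN1 (f : ℚ⟦X⟧) : Prop := NN (f - 1)

theorem NN1.nn {f : ℚ⟦X⟧} (h : NN1 f) : NN f := by
  have := NN.add h NN.one
  rwa [sub_add_cancel] at this

theorem NN1.one : NN1 (1 : ℚ⟦X⟧) := by
  unfold NN1
  rw [sub_self]
  exact NN.zero

theorem NN1.mul {f g : ℚ⟦X⟧} (hf : NN1 f) (hg : NN1 g) : NN1 (f * g) := by
  unfold NN1 at *
  have h : f * g - 1 = (f - 1) * (g - 1) + ((f - 1) + (g - 1)) := by ring
  rw [h]
  exact (hf.mul hg).add (hf.add hg)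

theorem NN1.prod {ι : Type} (s : Finset ι) (f : ι → ℚ⟦X⟧) (h : ∀ i ∈ s, NN1 (f i)) :
    NN1 (∏ i ∈ s, f i) := by
  classical
  induction s using Finset.induction_on with
  | empty => simpa using NN1.one
  | insert a s ha ih =>
    rw [Finset.prod_insert ha]
    exact (h a (mem_insert_self a s)).mul (ih (fun i hi => h i (mem_insert_of_mem hi)))

theorem NN1.one_add {f : ℚ⟦X⟧} (hf : NN f) : NN1 (1 + f) := by
  unfold NN1
  rw [add_sub_cancel_left]
  exact hf

theorem constCoeff_ne (e : ℕ) (he : 0 < e) : constantCoeff (1 - (X : ℚ⟦X⟧) ^ e) ≠ 0 := by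
  rw [map_sub, map_one, map_pow, constantCoeff_X, zero_pow he.ne', sub_zero]
  exact one_ne_zero

theorem one_sub_ne (e : ℕ) (he : 0 < e) : (1 - (X : ℚ⟦X⟧) ^ e) ≠ 0 := by
  intro h
  apply constCoeff_ne e he
  rw [h, map_zero]

/-- The geometric series. -/
theorem NN1.inv_one_sub (e : ℕ) (he : 0 < e) : NN1 ((1 - (X : ℚ⟦X⟧) ^ e)⁻¹) := by
  set f := (1 - (X : ℚ⟦X⟧) ^ e)⁻¹ with hf
  have h1 : (1 - (X : ℚ⟦X⟧) ^ e) * f = 1 := PowerSeries.mul_inv_cancel _ (constCoeff_ne e he)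
  have h2 : f = 1 + X ^ e * f := by linear_combination h1
  have h3 : NN f := by
    intro n
    induction n using Nat.strong_induction_on with
    | _ n ih =>
      rw [h2, map_add, coeff_X_pow_mul', coeff_one]
      apply add_nonneg
      · split_ifs <;> norm_num
      · split_ifs
        · exact ih _ (by omega)
        · exact le_refl _
  rw [h2]
  exact NN1.one_add ((NN.X_pow e).mul h3)

theorem inv_prod (s : Finset ℕ) (e : ℕ → ℕ) (he : ∀ i ∈ s, 0 < e i) :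
    ∃ g : ℚ⟦X⟧, NN1 g ∧ (∏ i ∈ s, (1 - (X : ℚ⟦X⟧) ^ e i)) * g = 1 := by
  refine ⟨∏ i ∈ s, (1 - (X : ℚ⟦X⟧) ^ e i)⁻¹, NN1.prod _ _ (fun i hi => NN1.inv_one_sub _ (he i hi)),
    ?_⟩
  rw [← Finset.prod_mul_distrib]
  apply Finset.prod_eq_one
  intro i hi
  exact PowerSeries.mul_inv_cancel _ (constCoeff_ne _ (he i hi))

theorem NN.geom (x : ℚ⟦X⟧) (hx : NN x) (n : ℕ) : NN (∑ i ∈ range n, x ^ i) :=
  NN.sum _ _ (fun i _ => hx.pow i)

theorem NN.qPoch_neg (k n : ℕ) : NN1 (qPoch (-(X : ℚ⟦X⟧) ^ k) X n) := by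
  unfold qPoch
  apply NN1.prod
  intro i _
  have : (1 - -(X : ℚ⟦X⟧) ^ k * X ^ i) = 1 + X ^ (k + i) := by
    rw [pow_add]
    ring
  rw [this]
  exact NN1.one_add (NN.X_pow _)

theorem constCoeff_qPoch (x : ℚ⟦X⟧) (hx : constantCoeff x = 0) (n : ℕ) :
    constantCoeff (qPoch x x n) = 1 := by
  unfold qPoch
  rw [map_prod]
  apply Finset.prod_eq_one
  intro k _
  simp [hx]

/-- The closed form of the Gaussian binomial coefficients with lower index 2. -/
theorem gauss_two (x : ℚ⟦X⟧) (hx : constantCoeff x = 0) (t : ℕ) :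
    gauss x (t + 2) 2 * ((1 - x) * (1 - x ^ 2)) = (1 - x ^ (t + 1)) * (1 - x ^ (t + 2)) := by
  unfold gauss
  rw [if_pos (by omega), Nat.add_sub_cancel]
  have h0 : qPoch x x (t + 2) = qPoch x x t * ((1 - x ^ (t + 1)) * (1 - x ^ (t + 2))) := by
    unfold qPoch
    rw [Finset.prod_range_succ, Finset.prod_range_succ]
    ring
  have h2 : qPoch x x 2 = (1 - x) * (1 - x ^ 2) := by
    unfold qPoch
    rw [Finset.prod_range_succ, Finset.prod_range_succ, Finset.prod_range_zero]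
    ring
  have hne : constantCoeff (qPoch x x 2 * qPoch x x t) ≠ 0 := by
    rw [map_mul, constCoeff_qPoch x hx, constCoeff_qPoch x hx]
    norm_num
  have h3 := PowerSeries.mul_inv_cancel _ hne
  rw [h0, ← h2]
  calc qPoch x x t * ((1 - x ^ (t + 1)) * (1 - x ^ (t + 2))) * (qPoch x x 2 * qPoch x x t)⁻¹ *
        qPoch x x 2
      = (1 - x ^ (t + 1)) * (1 - x ^ (t + 2)) *
        ((qPoch x x 2 * qPoch x x t) * (qPoch x x 2 * qPoch x x t)⁻¹) := by ring
    _ = (1 - x ^ (t + 1)) * (1 - x ^ (t + 2)) := by rw [h3, mul_one]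

theorem one_sub_ne' (x : ℚ⟦X⟧) (hx : constantCoeff x = 0) (e : ℕ) (he : 0 < e) :
    (1 - x ^ e) ≠ 0 := by
  intro h
  have := congrArg constantCoeff h
  rw [map_sub, map_one, map_pow, hx, zero_pow he.ne', map_zero, sub_zero] at this
  exact one_ne_zero this

theorem NN.gauss_two (x : ℚ⟦X⟧) (hx : constantCoeff x = 0) (hx' : NN x) (t : ℕ) :
    NN (gauss x (t + 2) 2) := by
  have h := Pool.Agent.Lib.MP_acbfbf_co.gauss_two x hx t
  have hne : (1 - x) * (1 - x ^ 2) ≠ 0 := by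
    apply mul_ne_zero
    · have := one_sub_ne' x hx 1 (by norm_num)
      rwa [pow_one] at this
    · exact one_sub_ne' x hx 2 (by norm_num)
  have g1 : ∀ s : ℕ, (1 - x) * ∑ i ∈ range s, x ^ i = 1 - x ^ s := fun s => mul_neg_geom_sum x s
  have g2 : ∀ s : ℕ, (1 - x ^ 2) * ∑ i ∈ range s, (x ^ 2) ^ i = 1 - (x ^ 2) ^ s :=
    fun s => mul_neg_geom_sum (x ^ 2) s
  rcases Nat.even_or_odd' t with ⟨s, hs | hs⟩
  · -- t + 2 = 2 (s + 1)
    have h1 : gauss x (t + 2) 2 =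
        (∑ i ∈ range (t + 1), x ^ i) * (∑ i ∈ range (s + 1), (x ^ 2) ^ i) := by
      apply mul_right_cancel₀ hne
      rw [h]
      have e1 := g1 (t + 1)
      have e2 := g2 (s + 1)
      have e3 : (x ^ 2) ^ (s + 1) = x ^ (t + 2) := by
        rw [← pow_mul, hs]
        congr 1
      rw [e3] at e2
      rw [← e1, ← e2]
      ring
    rw [h1]
    exact (NN.geom x hx' _).mul (NN.geom _ (hx'.pow 2) _)
  · -- t + 1 = 2 (s + 1)
    have h1 : gauss x (t + 2) 2 =
        (∑ i ∈ range (t + 2), x ^ i) * (∑ i ∈ range (s + 1), (x ^ 2) ^ i) := by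
      apply mul_right_cancel₀ hne
      rw [h]
      have e1 := g1 (t + 2)
      have e2 := g2 (s + 1)
      have e3 : (x ^ 2) ^ (s + 1) = x ^ (t + 1) := by
        rw [← pow_mul, hs]
        congr 1
      rw [e3] at e2
      rw [← e1, ← e2]
      ring
    rw [h1]
    exact (NN.geom x hx' _).mul (NN.geom _ (hx'.pow 2) _)

/-- A finite form of Euler's theorem. -/
theorem euler_finite (L : ℕ) :
    qPoch X (X ^ 2) L * qPoch (-X ^ 1) X (2 * L) * qPoch (X ^ 2) (X ^ 2) L =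
      qPoch (X ^ 2) (X ^ 2) (2 * L) := by
  induction L with
  | zero => simp [qPoch]
  | succ L ih =>
    have e : 2 * (L + 1) = 2 * L + 1 + 1 := by ring
    rw [e]
    unfold qPoch at *
    rw [Finset.prod_range_succ _ L, Finset.prod_range_succ _ (2 * L + 1),
      Finset.prod_range_succ _ (2 * L), Finset.prod_range_succ _ L,
      Finset.prod_range_succ _ (2 * L + 1), Finset.prod_range_succ _ (2 * L), ← ih]
    ring

theorem inv_eq_prod (L : ℕ) : ∃ g : ℚ⟦X⟧, NN1 g ∧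
    (qPoch (X : ℚ⟦X⟧) (X ^ 2) L)⁻¹ = qPoch (-X ^ 1) X (2 * L) * g := by
  obtain ⟨g, hg, hg2⟩ := inv_prod (range L) (fun m => 2 * (L + m) + 2) (fun _ _ => by omega)
  refine ⟨g, hg, ?_⟩
  have h1 : qPoch ((X : ℚ⟦X⟧) ^ 2) (X ^ 2) (2 * L) = qPoch (X ^ 2) (X ^ 2) L *
      ∏ m ∈ range L, (1 - (X : ℚ⟦X⟧) ^ (2 * (L + m) + 2)) := by
    unfold qPoch
    rw [two_mul, Finset.prod_range_add]
    congr 1
    apply Finset.prod_congr rfl
    intro m _
    ring
  have hne : qPoch ((X : ℚ⟦X⟧) ^ 2) (X ^ 2) L ≠ 0 := by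
    intro h
    have h2 := constCoeff_qPoch ((X : ℚ⟦X⟧) ^ 2) (by simp) L
    rw [h, map_zero] at h2
    exact zero_ne_one h2
  have h3 : qPoch (X : ℚ⟦X⟧) (X ^ 2) L * qPoch (-X ^ 1) X (2 * L) =
      ∏ m ∈ range L, (1 - (X : ℚ⟦X⟧) ^ (2 * (L + m) + 2)) := by
    apply mul_left_cancel₀ hne
    rw [← h1, ← euler_finite]
    ring
  have hc : constantCoeff (qPoch (X : ℚ⟦X⟧) (X ^ 2) L) ≠ 0 := by
    unfold qPoch
    rw [map_prod]
    rw [Finset.prod_eq_one]
    · exact one_ne_zero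
    · intro k _
      simp
  rw [PowerSeries.inv_eq_iff_mul_eq_one hc, ← hg2, ← h3]
  ring

end Pool.Agent.Lib.MP_acbfbf_co
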