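import Mathlib
import Pool.Agent.Lib.MP_acbfbf_co.Basic

/-!
The coefficientwise inequality.
-/

set_option autoImplicit false

namespace Pool.Agent.Lib.MP_acbfbf_co

open PowerSeries Finset

theorem geomX (s : ℕ) : (1 - (X : ℚ⟦X⟧)) * ∑ i ∈ range s, (X : ℚ⟦X⟧) ^ i = 1 - X ^ s :=
  mul_neg_geom_sum X s

/-- The key positivity, with `n = t + 2`. -/
theorem key (t : ℕ) :
    NN ((1 + X) * (1 + X ^ 2) *
      ((1 - (X : ℚ⟦X⟧) ^ (2 * t + 6)) * (1 - X ^ 2)⁻¹ + X ^ 3 * gauss (X ^ 2) (t + 2) 2) -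
        X * gauss X (t + 2) 2) := by
  have hB := gauss_two (X : ℚ⟦X⟧) (by simp) t
  have hB2 := gauss_two ((X : ℚ⟦X⟧) ^ 2) (by simp) t
  have hBn := NN.gauss_two (X : ℚ⟦X⟧) (by simp) NN.var t
  set B := gauss (X : ℚ⟦X⟧) (t + 2) 2 with hBdef
  set B2 := gauss ((X : ℚ⟦X⟧) ^ 2) (t + 2) 2 with hB2def
  have hinv : (1 - (X : ℚ⟦X⟧) ^ 2) * (1 - (X : ℚ⟦X⟧) ^ 2)⁻¹ = 1 :=
    PowerSeries.mul_inv_cancel _ (constCoeff_ne 2 (by norm_num))
  set I := (1 - (X : ℚ⟦X⟧) ^ 2)⁻¹ with hI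
  have h1 := geomX (2 * t + 2)
  have h2 := geomX (t + 4)
  have h3 := geomX (t + 5)
  set T1 := ∑ i ∈ range (2 * t + 2), (X : ℚ⟦X⟧) ^ i with hT1
  set T2 := ∑ i ∈ range (t + 4), (X : ℚ⟦X⟧) ^ i with hT2
  set T3 := ∑ i ∈ range (t + 5), (X : ℚ⟦X⟧) ^ i with hT3
  have hid : (1 + X) * (1 + X ^ 2) * ((1 - (X : ℚ⟦X⟧) ^ (2 * t + 6)) * I + X ^ 3 * B2) - X * B =
      1 + X ^ 2 * T1 + X ^ (t + 2) * T2 + X ^ (t + 3) * T3 +
        X * B * (X ^ (t + 3) + X ^ (t + 4) + X ^ (2 * t + 5)) := by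
    have hne : (1 - (X : ℚ⟦X⟧)) * (1 - X ^ 2) ≠ 0 := by
      apply mul_ne_zero
      · have := one_sub_ne 1 (by norm_num)
        rwa [pow_one] at this
      · exact one_sub_ne 2 (by norm_num)
    apply mul_right_cancel₀ hne
    linear_combination
      (1 - (X : ℚ⟦X⟧)) * (1 + X) * (1 + X ^ 2) * (1 - (X : ℚ⟦X⟧) ^ (2 * t + 6)) * hinv +
      X ^ 3 * hB2 -
      X * hB * (1 + (X ^ (t + 3) + X ^ (t + 4) + X ^ (2 * t + 5))) -
      X ^ 2 * (1 - X ^ 2) * h1 - X ^ (t + 2) * (1 - X ^ 2) * h2 - X ^ (t + 3) * (1 - X ^ 2) * h3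
  rw [hid]
  have g : ∀ s, NN (∑ i ∈ range s, (X : ℚ⟦X⟧) ^ i) := fun s => NN.geom X NN.var s
  exact ((((NN.one.add ((NN.X_pow 2).mul (g _))).add ((NN.X_pow _).mul (g _))).add
    ((NN.X_pow _).mul (g _))).add ((NN.var.mul hBn).mul
      (((NN.X_pow _).add (NN.X_pow _)).add (NN.X_pow _))))

theorem nn_A (L : ℕ) :
    NN ((1 - (X : ℚ⟦X⟧) ^ (2 * L)) * (1 - X ^ 2)⁻¹) := by
  have hinv : (1 - (X : ℚ⟦X⟧) ^ 2) * (1 - (X : ℚ⟦X⟧) ^ 2)⁻¹ = 1 :=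
    PowerSeries.mul_inv_cancel _ (constCoeff_ne 2 (by norm_num))
  have h := mul_neg_geom_sum ((X : ℚ⟦X⟧) ^ 2) L
  have h2 : (1 - (X : ℚ⟦X⟧) ^ (2 * L)) * (1 - X ^ 2)⁻¹ = ∑ i ∈ range L, ((X : ℚ⟦X⟧) ^ 2) ^ i := by
    rw [pow_mul, ← h]
    linear_combination (∑ i ∈ range L, ((X : ℚ⟦X⟧) ^ 2) ^ i) * hinv
  rw [h2]
  exact NN.geom _ (NN.X_pow 2) _

theorem nn_gauss (x : ℚ⟦X⟧) (hx : constantCoeff x = 0) (hx' : NN x) (n : ℕ) :
    NN (gauss x n 2) := by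
  rcases lt_or_ge n 2 with h | h
  · unfold gauss
    rw [if_neg (by omega)]
    exact NN.zero
  · obtain ⟨t, rfl⟩ : ∃ t, n = t + 2 := ⟨n - 2, by omega⟩
    exact NN.gauss_two x hx hx' t

theorem main (L : ℕ) (hL : 1 ≤ L) :
    NN ((qPoch (X : ℚ⟦X⟧) (X ^ 2) L)⁻¹ *
      ((1 - X ^ (2 * L - 2)) * (1 - X ^ 2)⁻¹ + X ^ 3 * gauss (X ^ 2) (L - 2) 2) -
        X * gauss X (L - 2) 2 * qPoch (-X ^ 3) X (L - 4)) := by
  obtain ⟨g, hg, hE⟩ := inv_eq_prod L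
  rcases lt_or_ge L 4 with h4 | h4
  · have h0 : gauss (X : ℚ⟦X⟧) (L - 2) 2 = 0 := by
      unfold gauss
      rw [if_neg (by omega)]
    rw [h0, mul_zero, zero_mul, sub_zero, hE]
    apply NN.mul
    · exact (NN.qPoch_neg 1 _).nn.mul hg.nn
    · apply NN.add
      · have := nn_A (L - 1)
        rwa [show 2 * (L - 1) = 2 * L - 2 by omega] at this
      · exact (NN.X_pow 3).mul (nn_gauss _ (by simp) (NN.X_pow 2) _)
  · obtain ⟨t, rfl⟩ : ∃ t, L = t + 4 := ⟨L - 4, by omega⟩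
    have e1 : 2 * (t + 4) - 2 = 2 * t + 6 := by omega
    have e2 : t + 4 - 2 = t + 2 := by omega
    have e3 : t + 4 - 4 = t := by omega
    rw [e1, e2, e3, hE]
    have hk := key t
    set A := (1 - (X : ℚ⟦X⟧) ^ (2 * t + 6)) * (1 - X ^ 2)⁻¹ + X ^ 3 * gauss (X ^ 2) (t + 2) 2 with hA
    set B := gauss (X : ℚ⟦X⟧) (t + 2) 2 with hB
    -- split the product
    have hsplit : qPoch (-(X : ℚ⟦X⟧) ^ 1) X (2 * (t + 4)) =
        (1 + X) * (1 + X ^ 2) * qPoch (-X ^ 3) X t * qPoch (-X ^ (t + 3)) X (t + 6) := by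
      have e : 2 * (t + 4) = (2 + t) + (t + 6) := by ring
      rw [e]
      unfold qPoch
      rw [Finset.prod_range_add, Finset.prod_range_add, Finset.prod_range_succ,
        Finset.prod_range_succ, Finset.prod_range_zero]
      have f1 : ∏ x ∈ range t, (1 - -(X : ℚ⟦X⟧) ^ 1 * X ^ (2 + x)) =
          ∏ k ∈ range t, (1 - -(X : ℚ⟦X⟧) ^ 3 * X ^ k) := by
        apply Finset.prod_congr rfl
        intro k _
        ring
      have f2 : ∏ x ∈ range (t + 6), (1 - -(X : ℚ⟦X⟧) ^ 1 * X ^ (2 + t + x)) =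
          ∏ k ∈ range (t + 6), (1 - -(X : ℚ⟦X⟧) ^ (t + 3) * X ^ k) := by
        apply Finset.prod_congr rfl
        intro k _
        ring
      rw [f1, f2]
      ring
    rw [hsplit]
    set P := qPoch (-(X : ℚ⟦X⟧) ^ 3) X t with hP
    set R := qPoch (-(X : ℚ⟦X⟧) ^ (t + 3)) X (t + 6) with hR
    have hPn : NN P := (NN.qPoch_neg 3 t).nn
    have hRn : NN1 R := NN.qPoch_neg (t + 3) (t + 6)
    have hRg : NN (R * g - 1) := hRn.mul hg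
    have hAn : NN A := by
      rw [hA]
      apply NN.add
      · have := nn_A (t + 3)
        rwa [show 2 * (t + 3) = 2 * t + 6 by ring] at this
      · exact (NN.X_pow 3).mul (NN.gauss_two _ (by simp) (NN.X_pow 2) _)
    have hfin : (1 + X) * (1 + X ^ 2) * P * R * g * A - X * B * P =
        P * ((1 + X) * (1 + X ^ 2) * A * (R * g - 1) + ((1 + X) * (1 + X ^ 2) * A - X * B)) := by
      ring
    rw [hfin]
    apply hPn.mul
    apply NN.add _ hk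
    apply NN.mul _ hRg
    exact ((NN.one.add NN.var).mul (NN.one.add (NN.X_pow 2))).mul hAn

end Pool.Agent.Lib.MP_acbfbf_co
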